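import Mathlib
import Pool.Agent.Y16.AF.StmC
import Pool.Agent.Y514.AF.Simp

/-! The second invariant form for simple groups (job AF3-SIMQ of helper16). -/

set_option autoImplicit false

open Matrix
open scoped Matrix.Norms.Frobenius
open Pool.Agent.Y16.Gluon Pool.Agent.Y16.AF Pool.Agent.Y514.AF

namespace Pool.Agent.Y954.AF

noncomputable section

variable {N n : ℕ} {G : Subgroup (UU N)}

/-- the Casimir element of the representation -/
def Om (B : LieBasis G n) : Mt N := ∑ c, B.X c * B.X c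

lemma brk_eq (B : LieBasis G n) (d b : Fin n) :
    B.X d * B.X b - B.X b * B.X d = ∑ e, A B d b e • B.X e := by
  conv_lhs => rw [expand B (bm B d b)]
  rfl

lemma Om_comm (B : LieBasis G n) (d : Fin n) : B.X d * Om B = Om B * B.X d := by
  rw [← sub_eq_zero]
  have h1 : B.X d * Om B - Om B * B.X d =
      ∑ c, ((B.X d * B.X c - B.X c * B.X d) * B.X c + B.X c * (B.X d * B.X c - B.X c * B.X d)) := by
    unfold Om
    rw [Finset.mul_sum, Finset.sum_mul, ← Finset.sum_sub_distrib]
    refine Finset.sum_congr rfl fun c _ => ?_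
    noncomm_ring
  have h2 : ∑ c, ((B.X d * B.X c - B.X c * B.X d) * B.X c +
      B.X c * (B.X d * B.X c - B.X c * B.X d)) =
      ∑ c, ∑ e, A B d c e • (B.X e * B.X c + B.X c * B.X e) := by
    refine Finset.sum_congr rfl fun c _ => ?_
    rw [brk_eq, Finset.sum_mul, Finset.mul_sum, ← Finset.sum_add_distrib]
    refine Finset.sum_congr rfl fun e _ => ?_
    rw [smul_mul_assoc, mul_smul_comm, smul_add]
  have h3 : ∑ c, ∑ e, A B d c e • (B.X e * B.X c + B.X c * B.X e) =
      -∑ c, ∑ e, A B d c e • (B.X e * B.X c + B.X c * B.X e) := by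
    conv_lhs => rw [Finset.sum_comm]
    rw [← Finset.sum_neg_distrib]
    refine Finset.sum_congr rfl fun c _ => ?_
    rw [← Finset.sum_neg_distrib]
    refine Finset.sum_congr rfl fun e _ => ?_
    rw [A_anti B d e c, neg_smul, add_comm]
  rw [h1, h2]
  obtain ⟨S, hS⟩ : ∃ S, S = ∑ c, ∑ e, A B d c e • (B.X e * B.X c + B.X c * B.X e) := ⟨_, rfl⟩
  rw [← hS] at h3 ⊢
  have h4 : S + S = 0 := by
    nth_rewrite 1 [h3]
    exact neg_add_cancel S
  have h5 : S = (1 / 2 : ℝ) • (S + S) := by
    rw [smul_add, ← add_smul]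
    norm_num
  rw [h5, h4, smul_zero]

/-- the second form -/
def D (B : LieBasis G n) : Matrix (Fin n) (Fin n) ℝ :=
  Matrix.of fun a e => ∑ c, (trace ((B.X c * B.X a)ᴴ * (B.X c * B.X e))).re

lemma D_symm (B : LieBasis G n) (a e : Fin n) : D B a e = D B e a := by
  show ∑ c, (trace ((B.X c * B.X a)ᴴ * (B.X c * B.X e))).re =
    ∑ c, (trace ((B.X c * B.X e)ᴴ * (B.X c * B.X a))).re
  refine Finset.sum_congr rfl fun c _ => ?_
  have h1 : trace ((B.X c * B.X e)ᴴ * (B.X c * B.X a)) =
      star (trace ((B.X c * B.X a)ᴴ * (B.X c * B.X e))) := by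
    rw [← Matrix.trace_conjTranspose, Matrix.conjTranspose_mul (B.X c * B.X a)ᴴ,
      Matrix.conjTranspose_conjTranspose]
  rw [h1]
  exact (Complex.conj_re _).symm

lemma D_eq (B : LieBasis G n) (a e : Fin n) : D B a e = (trace (B.X a * Om B * B.X e)).re := by
  show ∑ c, (trace ((B.X c * B.X a)ᴴ * (B.X c * B.X e))).re = _
  unfold Om
  rw [Finset.mul_sum, Finset.sum_mul, Matrix.trace_sum, Complex.re_sum]
  refine Finset.sum_congr rfl fun c _ => ?_
  rw [Matrix.conjTranspose_mul, skX, skX, neg_mul_neg]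
  simp only [← mul_assoc]

lemma D_comm (B : LieBasis G n) (d : Fin n) : A B d * D B = D B * A B d := by
  ext a e
  have h1 : (A B d * D B) a e =
      (trace ((B.X d * B.X a - B.X a * B.X d) * Om B * B.X e)).re := by
    rw [brk_eq, Finset.sum_mul, Finset.sum_mul, Matrix.trace_sum, Complex.re_sum,
      Matrix.mul_apply]
    refine Finset.sum_congr rfl fun c _ => ?_
    rw [D_eq, smul_mul_assoc, smul_mul_assoc, Matrix.trace_smul, Complex.smul_re, smul_eq_mul]
  have h2 : (D B * A B d) a e =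
      -(trace (B.X a * Om B * (B.X d * B.X e - B.X e * B.X d))).re := by
    rw [brk_eq, Finset.mul_sum, Matrix.trace_sum, Complex.re_sum, Matrix.mul_apply,
      ← Finset.sum_neg_distrib]
    refine Finset.sum_congr rfl fun c _ => ?_
    rw [D_eq, mul_smul_comm, Matrix.trace_smul, Complex.smul_re, smul_eq_mul, A_anti B d c e]
    ring
  rw [h1, h2, ← Complex.neg_re]
  congr 1
  have h3 : trace (B.X d * (B.X a * Om B * B.X e)) = trace (B.X a * Om B * B.X e * B.X d) :=
    Matrix.trace_mul_comm _ _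
  have h4 : B.X a * B.X d * Om B * B.X e = B.X a * Om B * B.X d * B.X e := by
    rw [mul_assoc (B.X a), Om_comm, ← mul_assoc]
  rw [sub_mul, sub_mul, mul_sub, Matrix.trace_sub, Matrix.trace_sub, h4]
  simp only [← mul_assoc] at h3 ⊢
  rw [h3]
  ring

lemma p_eq (B : LieBasis G n) {T : Mt N} (hT : T ∈ Submodule.span ℝ (Set.range B.X)) :
    (∑ c, ‖B.X c * T‖ ^ 2) = ∑ a, ∑ e, cf B T a * cf B T e * D B a e := by
  have h1 : ∀ c, ‖B.X c * T‖ ^ 2 = ∑ a, ∑ e, cf B T a * cf B T e *
      (trace ((B.X c * B.X a)ᴴ * (B.X c * B.X e))).re := by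
    intro c
    have h2 : B.X c * T = ∑ a, cf B T a • (B.X c * B.X a) := by
      conv_lhs => rw [expand B hT]
      rw [Finset.mul_sum]
      refine Finset.sum_congr rfl fun a _ => ?_
      rw [mul_smul_comm]
      rfl
    rw [frob_sq, h2, Matrix.conjTranspose_sum, Finset.sum_mul, Matrix.trace_sum, Complex.re_sum]
    refine Finset.sum_congr rfl fun a _ => ?_
    rw [Finset.mul_sum, Matrix.trace_sum, Complex.re_sum]
    refine Finset.sum_congr rfl fun e _ => ?_
    rw [Matrix.conjTranspose_smul, star_trivial, smul_mul_assoc, mul_smul_comm, Matrix.trace_smul,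
      Matrix.trace_smul, Complex.smul_re, Complex.smul_re, smul_eq_mul, smul_eq_mul, mul_assoc]
  rw [Finset.sum_congr rfl fun c _ => h1 c, Finset.sum_comm]
  refine Finset.sum_congr rfl fun a _ => ?_
  rw [Finset.sum_comm]
  refine Finset.sum_congr rfl fun e _ => ?_
  rw [← Finset.mul_sum]
  rfl

theorem af_simq : S_SIMQ := by
  intro N n G B hn hW
  have hCH : (D B).IsHermitian := by
    ext a e
    rw [Matrix.conjTranspose_apply, star_trivial]
    exact D_symm B e a
  set i : Fin n := ⟨0, hn⟩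
  set l : ℝ := hCH.eigenvalues i with hl
  set v : Fin n → ℝ := ⇑(hCH.eigenvectorBasis i) with hv
  have hv1 : D B *ᵥ v = l • v := hCH.mulVec_eigenvectorBasis i
  have hv0 : v ≠ 0 := by
    intro h
    apply hCH.eigenvectorBasis.orthonormal.ne_zero i
    ext a
    exact congrFun h a
  let W : Submodule ℝ (Mt N) := Submodule.span ℝ (Set.range B.X) ⊓
    LinearMap.ker ((D B).mulVecLin ∘ₗ cf B - l • cf B)
  have hWm : ∀ Y, Y ∈ W ↔ Y ∈ Submodule.span ℝ (Set.range B.X) ∧
      D B *ᵥ cf B Y = l • cf B Y := by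
    intro Y
    rw [Submodule.mem_inf, LinearMap.mem_ker, LinearMap.sub_apply, sub_eq_zero]
    rfl
  have hst : ∀ a, ∀ Y ∈ W, B.X a * Y - Y * B.X a ∈ W := by
    intro a Y hY
    rw [hWm] at hY ⊢
    obtain ⟨hY1, hY2⟩ := hY
    refine ⟨?_, ?_⟩
    · rw [← neg_sub]
      exact Submodule.neg_mem _ (brT B hY1 a)
    · have h1 : cf B (B.X a * Y - Y * B.X a) = -(A B a *ᵥ cf B Y) := by
        funext e
        rw [cf_brk B a hY1, Pi.neg_apply, Matrix.mulVec, dotProduct, ← Finset.sum_neg_distrib]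
        refine Finset.sum_congr rfl fun b _ => ?_
        rw [A_anti B a b e]
        ring
      rw [h1, Matrix.mulVec_neg, Matrix.mulVec_mulVec, ← D_comm, ← Matrix.mulVec_mulVec, hY2,
        Matrix.mulVec_smul, smul_neg]
  have hWtop : W = Submodule.span ℝ (Set.range B.X) := by
    rcases hW W inf_le_left hst with h | h
    · exfalso
      have hmem : (∑ a, v a • B.X a) ∈ W := by
        rw [hWm, cf_comb]
        exact ⟨Submodule.sum_mem _ fun a _ => Submodule.smul_mem _ _
          (Submodule.subset_span ⟨a, rfl⟩), hv1⟩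
      rw [h, Submodule.mem_bot] at hmem
      apply hv0
      rw [← cf_comb B v, hmem, map_zero]
    · exact h
  have hCl : ∀ a e, D B a e = if a = e then l else 0 := by
    intro a e
    have h1 : B.X e ∈ W := by
      rw [hWtop]
      exact Submodule.subset_span ⟨e, rfl⟩
    have h2 := ((hWm _).1 h1).2
    rw [cf_X] at h2
    have h3 := congrFun h2 a
    rw [Matrix.mulVec_single_one] at h3
    rw [Pi.smul_apply, Pi.single_apply, smul_eq_mul] at h3
    have h4 : D B a e = l * if a = e then 1 else 0 := h3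
    rw [h4]
    split_ifs <;> simp
  have hq : ∀ T ∈ Submodule.span ℝ (Set.range B.X), (∑ a, ‖B.X a * T‖ ^ 2) = l * ‖T‖ ^ 2 := by
    intro T hT
    rw [p_eq B hT, frob_span B hT, Finset.mul_sum]
    refine Finset.sum_congr rfl fun a _ => ?_
    simp only [hCl, mul_ite, mul_zero]
    rw [Finset.sum_ite_eq]
    simp only [Finset.mem_univ, if_true]
    rw [cf_apply]
    ring
  intro T hT
  rw [hq T hT]
  congr 1
  have hX : ∀ b, (∑ a, ‖B.X a * B.X b‖ ^ 2) = l := by
    intro b
    rw [hq _ (Submodule.subset_span ⟨b, rfl⟩)]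
    have : ‖B.X b‖ ^ 2 = 1 := by
      rw [frob_sq, B.orth, if_pos rfl]
    rw [this, mul_one]
  rw [Finset.sum_comm]
  simp only [hX]
  have hn' : (n : ℝ) ≠ 0 := by exact_mod_cast hn.ne'
  simp
  field_simp

end

end Pool.Agent.Y954.AF
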